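import Pool.Agent.Helper42.DB.Goals2

set_option autoImplicit false

/-!
# MP_48f005_an, packet LAND: continuity and monotonicity of the landing point
-/

namespace Pool.Agent.Helper42.DB.PkLAND

open Set Filter Topology

lemma sin_kk {kk : ℝ} (h : Real.cos kk = -1) : Real.sin kk = 0 := by
  have := Real.sin_sq_add_cos_sq kk
  rw [h] at this
  have h2 : Real.sin kk ^ 2 = 0 := by linarith
  exact pow_eq_zero_iff (two_ne_zero) |>.mp h2

lemma ee_add_kk {kk : ℝ} (h : Real.cos kk = -1) (a : ℝ) : ee (a + kk) = -ee a := by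
  have h0 := sin_kk h
  apply Complex.ext
  · simp [Real.cos_add, h, h0]
  · simp [Real.sin_add, h, h0]

lemma vec_eq (θ : ℝ) (z : ℂ) (h : cr (ee θ) z = 0) : z = dt (ee θ) z • ee θ := by
  have h1 := Real.sin_sq_add_cos_sq θ
  simp only [cr, ee_re, ee_im] at h
  apply Complex.ext
  · simp only [Complex.smul_re, smul_eq_mul, dt, ee_re, ee_im]
    linear_combination (-z.re) * h1 + (- Real.sin θ) * h
  · simp only [Complex.smul_im, smul_eq_mul, dt, ee_re, ee_im]
    linear_combination (-z.im) * h1 + Real.cos θ * h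

lemma ident (a b n W : ℂ) : cr a W * dt b n - cr b W * dt a n = cr a b * dt n W := by
  simp only [cr, dt]; ring

lemma contOn_cr {s : Set ℝ} {f g : ℝ → ℂ} (hf : ContinuousOn f s) (hg : ContinuousOn g s) :
    ContinuousOn (fun x => cr (f x) (g x)) s := by
  unfold cr
  fun_prop

lemma contOn_dt {s : Set ℝ} {f g : ℝ → ℂ} (hf : ContinuousOn f s) (hg : ContinuousOn g s) :
    ContinuousOn (fun x => dt (f x) (g x)) s := by
  unfold dt
  fun_prop

/-- Sign of the ray `l` on a point of the ray `l'` beyond the line. -/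
lemma sgn (θ θ' η C T H H' : ℝ) (b b' Z : ℂ) (hZ : Z = b' + T • ee θ')
    (hc : 0 < Real.cos (θ - η)) (hc' : 0 < Real.cos (θ' - η))
    (hH : H = cr (ee θ) (b - C • ee η) / Real.cos (θ - η))
    (hH' : H' = cr (ee θ') (b' - C • ee η) / Real.cos (θ' - η)) :
    cr (ee θ) (Z - b) * Real.cos (θ' - η) =
      (H' - H) * Real.cos (θ - η) * Real.cos (θ' - η) +
        Real.sin (θ' - θ) * (dt (ee η) Z - C) := by
  have e1 : H * Real.cos (θ - η) = cr (ee θ) (b - C • ee η) := by
    rw [hH]; field_simp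
  have e2 : H' * Real.cos (θ' - η) = cr (ee θ') (b' - C • ee η) := by
    rw [hH']; field_simp
  have e3 : cr (ee θ') (Z - C • ee η) = cr (ee θ') (b' - C • ee η) := by
    rw [hZ, show b' + T • ee θ' - C • ee η = (b' - C • ee η) + T • ee θ' by ring,
      cr_add_right, cr_smul_right, cr_self]
    ring
  have e4 : cr (ee θ) (Z - b) = cr (ee θ) (Z - C • ee η) - cr (ee θ) (b - C • ee η) := by
    rw [← cr_sub_right]; congr 1; ring
  have e5 := ident (ee θ) (ee θ') (ee η) (Z - C • ee η)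
  rw [cr_ee_ee, dt_ee_ee, dt_ee_ee, dt_sub_right, dt_smul_right, dt_self, norm_ee,
    show η - θ' = -(θ' - η) by ring, show η - θ = -(θ - η) by ring, Real.cos_neg,
    Real.cos_neg] at e5
  rw [e4]
  linear_combination e5 + Real.cos (θ - η) * e3 - Real.cos (θ - η) * e2 + Real.cos (θ' - η) * e1

theorem thm (S : Sys) : G_CRV → G_HMONO → G_LAND S := by
  intro hCRV hHM c j p q ν θ η C kk μ0 μ1 T0 T1 hpq hMP hSP habs hp hq hkk hC1 hC2 hT0 hT1
    hg0 hg1 ha0 ha1
  obtain ⟨hνc, hθc, hνm, hθm⟩ := hMP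
  have hpI : p ∈ Icc p q := ⟨le_rfl, hpq.le⟩
  have hqI : q ∈ Icc p q := ⟨hpq.le, le_rfl⟩
  have hθp : ∀ l ∈ Icc p q, θ p ≤ θ l := fun l hl => hθm hpI hl hl.1
  have hθq : ∀ l ∈ Icc p q, θ l ≤ θ q := fun l hl => hθm hl hqI hl.2
  have hνp : ∀ l ∈ Icc p q, ν p ≤ ν l := fun l hl => hνm hpI hl hl.1
  have hνq : ∀ l ∈ Icc p q, ν l ≤ ν q := fun l hl => hνm hl hqI hl.2
  have hp' := abs_lt.mp hp
  have hq' := abs_lt.mp hq
  have ha0' := abs_lt.mp ha0
  have ha1' := abs_lt.mp ha1
  have habsη : ∀ l ∈ Icc p q, |θ l - η| < Real.pi / 2 := by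
    intro l hl
    have h1 := hθp l hl
    have h2 := hθq l hl
    exact abs_lt.mpr ⟨by linarith, by linarith⟩
  have hcos : ∀ l ∈ Icc p q, 0 < Real.cos (θ l - η) := fun l hl =>
    Real.cos_pos_of_mem_Ioo (abs_lt.mp (habsη l hl))
  have hbC : ∀ l ∈ Icc p q, dt (ee η) (c.G (ν l)) < C := fun l hl =>
    hC1 _ ⟨hνp l hl, hνq l hl⟩
  set H : ℝ → ℝ := fun l => cr (ee (θ l)) (c.G (ν l) - C • ee η) / Real.cos (θ l - η) with hHdef
  have hH : ∀ l ∈ Icc p q, ∀ l' ∈ Icc p q, l < l' → H l < H l' := by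
    intro l hl l' hl' hll
    have h1 := hHM c η C (ν l) (ν l') (θ l) (θ l') (hνm hl hl' hll.le) (hθm hl hl' hll.le)
      (habs l hl) (habs l' hl') (habsη l hl) (habsη l' hl')
      (fun v hv => hC1 v ⟨(hνp l hl).trans hv.1, hv.2.trans (hνq l' hl')⟩)
    apply h1.2
    rcases hSP with h2 | ⟨hR, hs, h3⟩
    · exact Or.inl (h2 hl hl' hll)
    · rcases h3 l hl l' hl' hll with h4 | h4
      · exact Or.inr ⟨h4, hR, hs l hl, hs l' hl'⟩
      · exact Or.inl h4
  -- the landing parameters are ordered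
  have hμ : μ1 < μ0 := by
    by_contra hcon
    push Not at hcon
    have h1 := (hHM (S.crv j) (η + kk) (-C) μ0 μ1 (θ p + kk) (θ q + kk) hcon
      (by linarith [hθp q hqI]) ha0.le ha1.le
      (by rw [show θ p + kk - (η + kk) = θ p - η by ring]; exact hp)
      (by rw [show θ q + kk - (η + kk) = θ q - η by ring]; exact hq)
      (fun v hv => by
        rw [ee_add_kk hkk, dt_neg_left]
        have := hC2 v (by rw [uIcc_of_le hcon]; exact hv)
        linarith)).1
    rw [show θ p + kk - (η + kk) = θ p - η by ring, show θ q + kk - (η + kk) = θ q - η by ring,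
      ee_add_kk hkk, ee_add_kk hkk, ee_add_kk hkk] at h1
    have h2 : (-C) • (-ee η) = C • ee η := by simp
    rw [h2] at h1
    have h3 : cr (-ee (θ p)) ((S.crv j).G μ0 - C • ee η) = -cr (ee (θ p)) (c.G (ν p) - C • ee η) := by
      rw [show (S.crv j).G μ0 = c.G (ν p) + T0 • ee (θ p) from hg0,
        show c.G (ν p) + T0 • ee (θ p) - C • ee η = (c.G (ν p) - C • ee η) + T0 • ee (θ p) by ring,
        cr_neg_left, cr_add_right, cr_smul_right, cr_self]
      ring
    have h4 : cr (-ee (θ q)) ((S.crv j).G μ1 - C • ee η) = -cr (ee (θ q)) (c.G (ν q) - C • ee η) := by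
      rw [show (S.crv j).G μ1 = c.G (ν q) + T1 • ee (θ q) from hg1,
        show c.G (ν q) + T1 • ee (θ q) - C • ee η = (c.G (ν q) - C • ee η) + T1 • ee (θ q) by ring,
        cr_neg_left, cr_add_right, cr_smul_right, cr_self]
      ring
    rw [h3, h4, neg_div, neg_div] at h1
    have h5 := hH p hpI q hqI hpq
    simp only [hHdef] at h5
    linarith
  have hIcc : uIcc μ0 μ1 = Icc μ1 μ0 := by rw [uIcc_comm, uIcc_of_le hμ.le]
  rw [hIcc] at hC2
  have habs3 : ∀ l ∈ Icc p q, ∀ m ∈ Icc μ1 μ0, |θ l + kk - m| < Real.pi / 2 := by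
    intro l hl m hm
    have h1 := hθp l hl
    have h2 := hθq l hl
    exact abs_lt.mpr ⟨by linarith [hm.2], by linarith [hm.1]⟩
  set s : ℝ → ℝ → ℝ := fun l m => cr (ee (θ l)) (S.g j m - c.G (ν l)) with hs
  have hneg : ∀ l ∈ Icc p q, ∀ u ∈ Icc μ1 μ0, ∀ v ∈ Icc μ1 μ0, u < v → s l v < s l u := by
    intro l hl u hu v hv huv
    have h1 := (hCRV (S.crv j) (θ l) u v).1
    have h2 : 0 < ∫ t in u..v, -((S.crv j).R t * Real.cos (t - θ l)) := by
      apply intervalIntegral.intervalIntegral_pos_of_pos_on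
      · apply Continuous.intervalIntegrable
        have := (S.crv j).cont
        fun_prop
      · intro t ht
        have h3 := Real.cos_pos_of_mem_Ioo (abs_lt.mp
          (habs3 l hl t ⟨hu.1.trans ht.1.le, ht.2.le.trans hv.2⟩))
        rw [show θ l + kk - t = kk - (t - θ l) by ring, Real.cos_sub, hkk, sin_kk hkk] at h3
        have h4 := lt_of_lt_of_le S.r0_pos (S.le_R j t)
        nlinarith
      · exact huv
    rw [intervalIntegral.integral_neg, ← h1] at h2
    have h3 : s l v - s l u = cr (ee (θ l)) ((S.crv j).G v - (S.crv j).G u) := by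
      simp only [hs]
      rw [← cr_sub_right]; congr 1; ring
    linarith
  have hsc : ∀ l, Continuous (s l) := by
    intro l
    exact continuous_cr continuous_const ((S.crv j).continuous.sub continuous_const)
  have hbc : ContinuousOn (fun l => c.G (ν l)) (Icc p q) := c.continuous.comp_continuousOn hνc
  have hec : ContinuousOn (fun l => ee (θ l)) (Icc p q) := continuous_ee.comp_continuousOn hθc
  have hsc2 : ∀ m, ContinuousOn (fun l => s l m) (Icc p q) := fun m =>
    contOn_cr hec (continuousOn_const.sub hbc)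
  -- signs
  have hpi := Real.pi_pos
  have sg1 : ∀ l ∈ Icc p q, ∀ l' ∈ Icc p q, ∀ (T m : ℝ), l < l' → m ∈ Icc μ1 μ0 →
      S.g j m = c.G (ν l') + T • ee (θ l') → 0 < s l m := by
    intro l hl l' hl' T m hll hm hZ
    have h1 := sgn (θ l) (θ l') η C T (H l) (H l') (c.G (ν l)) (c.G (ν l')) (S.g j m) hZ
      (hcos l hl) (hcos l' hl') rfl rfl
    have h2 := hH l hl l' hl' hll
    have h3 := hC2 m hm
    have h4 : 0 ≤ Real.sin (θ l' - θ l) := by
      apply Real.sin_nonneg_of_nonneg_of_le_pi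
      · linarith [hθm hl hl' hll.le]
      · linarith [hθp l hl, hθq l' hl']
    have h5 : 0 < (H l' - H l) * Real.cos (θ l - η) * Real.cos (θ l' - η) :=
      mul_pos (mul_pos (by linarith) (hcos l hl)) (hcos l' hl')
    have h6 : 0 ≤ Real.sin (θ l' - θ l) * (dt (ee η) (S.g j m) - C) :=
      mul_nonneg h4 (by linarith)
    have h7 : 0 < cr (ee (θ l)) (S.g j m - c.G (ν l)) * Real.cos (θ l' - η) := by
      rw [h1]; linarith
    exact pos_of_mul_pos_left h7 (hcos l' hl').le
  have sg2 : ∀ l ∈ Icc p q, ∀ l' ∈ Icc p q, ∀ (T m : ℝ), l' < l → m ∈ Icc μ1 μ0 →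
      S.g j m = c.G (ν l') + T • ee (θ l') → s l m < 0 := by
    intro l hl l' hl' T m hll hm hZ
    have h1 := sgn (θ l) (θ l') η C T (H l) (H l') (c.G (ν l)) (c.G (ν l')) (S.g j m) hZ
      (hcos l hl) (hcos l' hl') rfl rfl
    have h2 := hH l' hl' l hl hll
    have h3 := hC2 m hm
    have h4 : Real.sin (θ l' - θ l) ≤ 0 := by
      apply Real.sin_nonpos_of_nonpos_of_neg_pi_le
      · linarith [hθm hl' hl hll.le]
      · linarith [hθp l' hl', hθq l hl]
    have h5 : 0 < (H l - H l') * Real.cos (θ l - η) * Real.cos (θ l' - η) :=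
      mul_pos (mul_pos (by linarith) (hcos l hl)) (hcos l' hl')
    have h6 : Real.sin (θ l' - θ l) * (dt (ee η) (S.g j m) - C) ≤ 0 :=
      mul_nonpos_of_nonpos_of_nonneg h4 (by linarith)
    have h7 : cr (ee (θ l)) (S.g j m - c.G (ν l)) * Real.cos (θ l' - η) < 0 := by
      rw [h1]; linarith
    exact neg_of_mul_neg_left h7 (hcos l' hl').le
  have hμ0I : μ0 ∈ Icc μ1 μ0 := ⟨hμ.le, le_rfl⟩
  have hμ1I : μ1 ∈ Icc μ1 μ0 := ⟨le_rfl, hμ.le⟩
  have hsp : s p μ0 = 0 := by
    simp only [hs]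
    rw [hg0, show c.G (ν p) + T0 • ee (θ p) - c.G (ν p) = T0 • ee (θ p) by ring, cr_smul_right,
      cr_self, mul_zero]
  have hsq : s q μ1 = 0 := by
    simp only [hs]
    rw [hg1, show c.G (ν q) + T1 • ee (θ q) - c.G (ν q) = T1 • ee (θ q) by ring, cr_smul_right,
      cr_self, mul_zero]
  have hs0 : ∀ l ∈ Icc p q, s l μ0 ≤ 0 := by
    intro l hl
    rcases hl.1.eq_or_lt with h | h
    · rw [← h, hsp]
    · exact (sg2 l hl p hpI T0 μ0 h hμ0I hg0).le
  have hs1 : ∀ l ∈ Icc p q, 0 ≤ s l μ1 := by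
    intro l hl
    rcases hl.2.eq_or_lt with h | h
    · rw [h, hsq]
    · exact (sg1 l hl q hqI T1 μ1 h hμ1I hg1).le
  have hex : ∀ l, ∃ m, l ∈ Icc p q → m ∈ Icc μ1 μ0 ∧ s l m = 0 := by
    intro l
    by_cases hl : l ∈ Icc p q
    · have h1 := intermediate_value_Icc' hμ.le (hsc l).continuousOn
      obtain ⟨m, hm, hm2⟩ := h1 ⟨hs0 l hl, hs1 l hl⟩
      exact ⟨m, fun _ => ⟨hm, hm2⟩⟩
    · exact ⟨0, fun h => absurd h hl⟩
  choose μ hμs using hex
  have huniq : ∀ l ∈ Icc p q, ∀ m ∈ Icc μ1 μ0, s l m = 0 → μ l = m := by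
    intro l hl m hm h0
    obtain ⟨h1, h2⟩ := hμs l hl
    rcases lt_trichotomy (μ l) m with h | h | h
    · have := hneg l hl _ h1 _ hm h; linarith
    · exact h
    · have := hneg l hl _ hm _ h1 h; linarith
  have hvec : ∀ l ∈ Icc p q,
      S.g j (μ l) = c.G (ν l) + dt (ee (θ l)) (S.g j (μ l) - c.G (ν l)) • ee (θ l) := by
    intro l hl
    have h1 := vec_eq (θ l) (S.g j (μ l) - c.G (ν l)) (hμs l hl).2
    rw [← h1]; ring
  have hanti : ∀ l ∈ Icc p q, ∀ l' ∈ Icc p q, l < l' → μ l' < μ l := by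
    intro l hl l' hl' hll
    have h1 := sg1 l hl l' hl' _ (μ l') hll (hμs l' hl').1 (hvec l' hl')
    obtain ⟨h2, h3⟩ := hμs l hl
    rcases lt_trichotomy (μ l') (μ l) with h | h | h
    · exact h
    · rw [h] at h1; linarith
    · have := hneg l hl _ h2 _ (hμs l' hl').1 h; linarith
  have hμc : ContinuousOn μ (Icc p q) := by
    intro l0 hl0
    obtain ⟨h1, h2⟩ := hμs l0 hl0
    apply tendsto_order.mpr
    constructor
    · intro a ha
      by_cases ha1 : a < μ1
      · filter_upwards [self_mem_nhdsWithin] with l hl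
        exact lt_of_lt_of_le ha1 (hμs l hl).1.1
      · have haI : a ∈ Icc μ1 μ0 := ⟨not_lt.mp ha1, ha.le.trans h1.2⟩
        have h3 : 0 < s l0 a := by
          have := hneg l0 hl0 a haI _ h1 ha; linarith
        have h4 := (hsc2 a l0 hl0).eventually (lt_mem_nhds h3)
        filter_upwards [h4, self_mem_nhdsWithin] with l h5 hl
        by_contra hcon
        push Not at hcon
        obtain ⟨h6, h7⟩ := hμs l hl
        rcases hcon.eq_or_lt with h | h
        · rw [h] at h7; linarith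
        · have := hneg l hl _ h6 _ haI h; linarith
    · intro a ha
      by_cases ha1 : μ0 < a
      · filter_upwards [self_mem_nhdsWithin] with l hl
        exact lt_of_le_of_lt (hμs l hl).1.2 ha1
      · have haI : a ∈ Icc μ1 μ0 := ⟨h1.1.trans ha.le, not_lt.mp ha1⟩
        have h3 : s l0 a < 0 := by
          have := hneg l0 hl0 _ h1 a haI ha; linarith
        have h4 := (hsc2 a l0 hl0).eventually (gt_mem_nhds h3)
        filter_upwards [h4, self_mem_nhdsWithin] with l h5 hl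
        by_contra hcon
        push Not at hcon
        obtain ⟨h6, h7⟩ := hμs l hl
        rcases hcon.eq_or_lt with h | h
        · rw [← h] at h7; linarith
        · have := hneg l hl _ haI _ h6 h; linarith
  have hμp : μ p = μ0 := huniq p hpI μ0 hμ0I hsp
  have hμq : μ q = μ1 := huniq q hqI μ1 hμ1I hsq
  refine ⟨μ, fun l => dt (ee (θ l)) (S.g j (μ l) - c.G (ν l)), hμp, hμq, ?_, ?_, hμc, ?_, ?_, ?_⟩
  · simp only []
    rw [hμp, hg0, show c.G (ν p) + T0 • ee (θ p) - c.G (ν p) = T0 • ee (θ p) by ring,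
      dt_smul_right, dt_self, norm_ee]
    ring
  · simp only []
    rw [hμq, hg1, show c.G (ν q) + T1 • ee (θ q) - c.G (ν q) = T1 • ee (θ q) by ring,
      dt_smul_right, dt_self, norm_ee]
    ring
  · exact contOn_dt hec (((S.crv j).continuous.comp_continuousOn hμc).sub hbc)
  · intro l hl l' hl' hll
    exact hanti l hl l' hl' hll
  · intro l hl
    refine ⟨?_, hvec l hl, habs3 l hl _ (hμs l hl).1⟩
    have h1 := hvec l hl
    have h2 := hC2 _ (hμs l hl).1
    have h3 := hbC l hl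
    have h4 : dt (ee η) (S.g j (μ l) - c.G (ν l)) =
        dt (ee (θ l)) (S.g j (μ l) - c.G (ν l)) * Real.cos (θ l - η) := by
      have h5 := vec_eq (θ l) (S.g j (μ l) - c.G (ν l)) (hμs l hl).2
      conv_lhs => rw [h5]
      rw [dt_smul_right, dt_ee_ee]
    rw [dt_sub_right] at h4
    have h6 : 0 < dt (ee (θ l)) (S.g j (μ l) - c.G (ν l)) * Real.cos (θ l - η) := by
      rw [← h4]; linarith
    exact pos_of_mul_pos_left h6 (hcos l hl).le

end Pool.Agent.Helper42.DB.PkLAND
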